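import Pool.Agent.L0h32.UX.Stm

/-!
# Project UNAM, module LYR: one layer
-/

set_option autoImplicit false
set_option linter.all false

namespace Pool.Agent.L0h10.UXL

open Relation
open Pool.Agent.H630R2.LA (LimAut Sym Cfg Step init initTape WS lrel bitS ix nr Ann keep)
open Pool.Agent.L0h32.UX

section

variable {A : Type} {h : ℕ} {rel : A → Fin (2 ^ h) → Fin (2 ^ h) → Bool} {p0 : Fin (2 ^ h)}
  {facc : Fin (2 ^ h) → Bool} {K : ℕ} {W : ℕ → ℕ → Fin (2 ^ h) → Fin (2 ^ h) → ℕ}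

theorem path_hop {τ : ℕ → Sym (WS A)} {t : ℕ} {m m' : Mem} (hh : Hop h p0 facc K m m') :
    ReflTransGen (RS h rel p0 facc K W τ (t + 1)) (.hm m, t) (.hm m', t) := by
  refine ReflTransGen.head (b := (.h1 m', t + 1)) ?_ (ReflTransGen.single ?_)
  · exact ⟨Nat.le_succ t, true, Tr.hop m m' _ hh, fun _ => rfl, fun hc => by cases hc⟩
  · exact ⟨le_rfl, false, Tr.back m' _, fun hc => (by cases hc), fun _ => rfl⟩

theorem reach_iff (w : List A) (β i l : ℕ) (p : Fin (2 ^ h)) :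
    (∃ v, Pw h rel p0 W w β i l p v) ↔ nr h rel p0 w (β + l) p := by
  induction l generalizing p with
  | zero =>
    constructor
    · rintro ⟨v, h1, _⟩
      exact h1
    · intro h1
      exact ⟨0, h1, rfl⟩
  | succ l ih =>
    constructor
    · rintro ⟨v, q, u, h1, h2, _⟩
      exact ⟨q, (ih q).1 ⟨u, h1⟩, h2⟩
    · rintro ⟨q, h1, h2⟩
      obtain ⟨u, hu⟩ := (ih q).2 h1
      exact ⟨u + W i l q p, q, u, hu, h2, rfl⟩

/-- If the record says that the minimum is attained twice then the weight function is bad. -/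
theorem mul_bad (hL : S_LAY) {w : List A} {t : ℕ} {m : Mem} (hm : MOK h rel p0 facc K W w t m)
    (hd : m.d = m.c) (he : m.e = m.s) (hr : m.r.mul = true) :
    ¬ Uq h rel p0 W w (bt h t m) m.i (m.l + 1) (ix h m.y) := by
  classical
  obtain ⟨-, -, -, -, -, hc, hs, hU, -, -, -, -, -, -, -, ⟨Z, g, hZ, hdZ, heZ, hrec⟩, -⟩ := hm
  obtain ⟨F, hF⟩ : ∃ F, F = Finset.univ.filter
    (fun q : Fin (2 ^ h) => q.val < 2 ^ h ∧ nr h rel p0 w (bt h t m + m.l) q) := ⟨_, rfl⟩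
  have hcF : m.c = F.card := by
    rw [hc, hF]
    unfold cnL
    congr
  have hsF : m.s = ∑ q ∈ F, Dm h rel p0 W w (bt h t m) m.i m.l q := by
    rw [hs, hF]
    unfold smL
    congr
  have hsub : Z ⊆ F := by
    intro q hq
    rw [hF, Finset.mem_filter]
    exact ⟨Finset.mem_univ _, q.isLt, (reach_iff w _ m.i m.l q).1 ⟨_, (hZ q hq).2⟩⟩
  have hZF : Z = F := Finset.eq_of_subset_of_card_le hsub (by rw [← hcF, ← hd, hdZ])
  have hle : ∀ q ∈ Z, Dm h rel p0 W w (bt h t m) m.i m.l q ≤ g q := fun q hq =>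
    Nat.sInf_le (hZ q hq).2
  have hsum : ∑ q ∈ Z, Dm h rel p0 W w (bt h t m) m.i m.l q = ∑ q ∈ Z, g q := by
    rw [← heZ, he, hsF, hZF]
  have heq := (Finset.sum_eq_sum_iff_of_le hle).1 hsum
  obtain ⟨r1, r2, r3⟩ := hrec
  have hhas : m.r.has = true := by
    by_contra hc1
    have hc2 : m.r.has = false := by simpa using hc1
    rw [(r2 hc2).1] at hr
    cases hr
  obtain ⟨-, hmin, hmul⟩ := r3 hhas
  obtain ⟨q, hq, q', hq', hne, e1, e2⟩ := hmul.1 hr
  rw [Finset.mem_filter] at hq hq'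
  obtain ⟨l1, l2, l3, l4⟩ := hL (Fin (2 ^ h)) (nr h rel p0 w (bt h t m)) (Ed h rel w (bt h t m)) (W m.i) m.l
    (ix h m.y) hU
  intro hUq
  have hrq : ∃ v, Pw h rel p0 W w (bt h t m) m.i m.l q v := ⟨_, (hZ q hq.1).2⟩
  have hrq' : ∃ v, Pw h rel p0 W w (bt h t m) m.i m.l q' v := ⟨_, (hZ q' hq'.1).2⟩
  obtain ⟨p, hp1, hp2, hp3⟩ := l3 (l1.2 ⟨q, hrq, hq.2⟩)
  have hpZ : p ∈ Z := by
    rw [hZF, hF, Finset.mem_filter]
    exact ⟨Finset.mem_univ _, p.isLt, (reach_iff w _ m.i m.l p).1 hp1⟩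
  have h1 : m.r.mn ≤ g p + W m.i m.l p (ix h m.y) := hmin p (Finset.mem_filter.2 ⟨hpZ, hp2⟩)
  have e1' : g q + W m.i m.l q (ix h m.y) = m.r.mn := e1
  have e2' : g q' + W m.i m.l q' (ix h m.y) = m.r.mn := e2
  have h2 := l2 q hrq hq.2
  have h3 := heq p hpZ
  have h4 := heq q hq.1
  have h5 := heq q' hq'.1
  simp only [Dm] at h3 h4 h5
  have h6 : GDm (nr h rel p0 w (bt h t m)) (Ed h rel w (bt h t m)) (W m.i) (m.l + 1) (ix h m.y) = m.r.mn := by
    omega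
  exact hne (l4.1 hUq q q' hrq hq.2 (by omega) hrq' hq'.2 (by omega))

/-- one target -/
theorem target (hE : S_ENU) (hH : S_HOP) (hL : S_LAY) {w : List A} {t : ℕ} {τ : ℕ → Sym (WS A)}
    (ht : t ≤ w.length) (hA : Ann h rel p0 w τ (min (t + 1) w.length)) {m : Mem}
    (hm : MOK h rel p0 facc K W w t m) (hl : m.l < Ly h m) (hy : m.y < 2 ^ h) (hz : m.z = 0) :
    (∃ m' : Mem, MOK h rel p0 facc K W w t m' ∧ m'.x = m.x ∧ m'.fin = m.fin ∧ m'.i = m.i ∧
      m'.l = m.l ∧ m'.y = m.y + 1 ∧ m'.z = 0 ∧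
      ReflTransGen (RS h rel p0 facc K W τ (t + 1)) (.hm m, t) (.hm m', t)) ∨
    (¬ Uq h rel p0 W w (bt h t m) m.i (m.l + 1) (ix h m.y) ∧ (m.i + 1 < K →
      ReflTransGen (RS h rel p0 facc K W τ (t + 1)) (.hm m, t)
        (.hm (mem0 h p0 facc m.x m.fin (m.i + 1)), t))) := by
  obtain ⟨r, hm1, hp1⟩ := hE A h rel p0 facc K W w t τ ht hA m hm hl hy hz
  obtain ⟨m1, hm1d⟩ : ∃ m1 : Mem, m1 = { m with z := 2 ^ h, d := m.c, e := m.s, r := r } := ⟨_, rfl⟩
  rw [← hm1d] at hm1 hp1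
  by_cases hr : m1.r.mul = false
  · left
    have hh := Hop.nexty (h := h) (p0 := p0) (facc := facc) (K := K) m1 (by rw [hm1d]; exact hl)
      (by rw [hm1d]; exact hy) (by rw [hm1d]) (by rw [hm1d]) (by rw [hm1d]) hr
    refine ⟨_, hH A h rel p0 facc K W w t _ _ hm1 hh, ?_, ?_, ?_, ?_, ?_, ?_, hp1.trans (path_hop hh)⟩
    all_goals rw [hm1d]
  · right
    have hr1 : m1.r.mul = true := by simpa using hr
    have h1 := mul_bad hL hm1 (by rw [hm1d]) (by rw [hm1d]) hr1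
    have e1 : bt h t m1 = bt h t m := by rw [hm1d]; rfl
    have e2 : m1.i = m.i := by rw [hm1d]
    have e3 : m1.l = m.l := by rw [hm1d]
    have e4 : m1.y = m.y := by rw [hm1d]
    rw [e1, e2, e3, e4] at h1
    refine ⟨h1, fun hi => ?_⟩
    have hh := Hop.bad (h := h) (p0 := p0) (facc := facc) (K := K) m1 (by rw [hm1d]; exact hl)
      (by rw [hm1d]; exact hy) (by rw [hm1d]) (by rw [hm1d]) (by rw [hm1d]) hr1 (by rw [e2]; exact hi)
    have h2 := hp1.trans (path_hop (rel := rel) (W := W) (τ := τ) (t := t) hh)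
    have e5 : m1.x = m.x := by rw [hm1d]
    have e6 : m1.fin = m.fin := by rw [hm1d]
    rw [e5, e6, e2] at h2
    exact h2

/-- all targets -/
theorem targets (hE : S_ENU) (hH : S_HOP) (hL : S_LAY) {w : List A} {t : ℕ} {τ : ℕ → Sym (WS A)}
    (ht : t ≤ w.length) (hA : Ann h rel p0 w τ (min (t + 1) w.length)) (n : ℕ) : ∀ {m : Mem},
    MOK h rel p0 facc K W w t m → m.l < Ly h m → m.z = 0 → m.y + n = 2 ^ h →
    (∃ m' : Mem, MOK h rel p0 facc K W w t m' ∧ m'.x = m.x ∧ m'.fin = m.fin ∧ m'.i = m.i ∧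
      m'.l = m.l ∧ m'.y = 2 ^ h ∧ m'.z = 0 ∧
      ReflTransGen (RS h rel p0 facc K W τ (t + 1)) (.hm m, t) (.hm m', t)) ∨
    ((¬ ∀ q, Uq h rel p0 W w (bt h t m) m.i (m.l + 1) q) ∧ (m.i + 1 < K →
      ReflTransGen (RS h rel p0 facc K W τ (t + 1)) (.hm m, t)
        (.hm (mem0 h p0 facc m.x m.fin (m.i + 1)), t))) := by
  induction n with
  | zero =>
    intro m hm hl hz hy
    left
    exact ⟨m, hm, rfl, rfl, rfl, rfl, by omega, hz, ReflTransGen.refl⟩
  | succ n ih =>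
    intro m hm hl hz hy
    rcases target hE hH hL ht hA hm hl (by omega) hz with ⟨m1, h1, h2, h3, h4, h5, h6, h7, h8⟩ | ⟨h1, h2⟩
    · have hLy : Ly h m1 = Ly h m := by unfold Ly; rw [h2, h3]
      have hbt : bt h t m1 = bt h t m := by unfold bt; rw [h2, h3]
      rcases ih h1 (by rw [h5, hLy]; exact hl) h7 (by omega) with
        ⟨m2, g1, g2, g3, g4, g5, g6, g7, g8⟩ | ⟨g1, g2⟩
      · left
        exact ⟨m2, g1, g2.trans h2, g3.trans h3, g4.trans h4, g5.trans h5, g6, g7, h8.trans g8⟩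
      · right
        rw [hbt, h4, h5] at g1
        rw [h2, h3, h4] at g2
        exact ⟨g1, fun hi => h8.trans (g2 hi)⟩
    · right
      exact ⟨fun hall => h1 (hall _), h2⟩

end

/-- module LYR: one layer -/
theorem t_LYR : S_ENU → S_HOP → S_LAY → S_LYR := by
  intro hE hH hL A h rel p0 facc K W w t τ ht hA m hm hl hy hz
  have key := targets hE hH hL ht hA (2 ^ h) hm hl hz (by omega)
  refine ⟨fun hall => ?_, fun hnot hi => ?_⟩
  · rcases key with ⟨m1, h1, h2, h3, h4, h5, h6, h7, h8⟩ | ⟨h1, _⟩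
    · have hLy : Ly h m1 = Ly h m := by unfold Ly; rw [h2, h3]
      have hh := Hop.layer (h := h) (p0 := p0) (facc := facc) (K := K) m1 (by rw [h5, hLy]; exact hl) h6
      refine ⟨_, hH A h rel p0 facc K W w t _ _ h1 hh, h2, h3, h4, ?_, rfl, h7, h8.trans (path_hop hh)⟩
      show m1.l + 1 = m.l + 1
      rw [h5]
    · exact absurd hall h1
  · rcases key with ⟨m1, h1, h2, h3, h4, h5, h6, h7, h8⟩ | ⟨_, h1⟩
    · exfalso
      apply hnot
      intro q
      have hbt : bt h t m1 = bt h t m := by unfold bt; rw [h2, h3]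
      have h9 := h1.2.2.2.2.2.2.2.2.2.2.2.1 q (by rw [h6]; exact q.isLt)
      rw [hbt, h4, h5] at h9
      exact h9
    · exact h1 hi

end Pool.Agent.L0h10.UXL
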